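import Mathlib

open MeasureTheory Set
open scoped unitInterval ENNReal

namespace Pool.Agent.Lib.Pea7c0e

/-! ## The model -/

/-- The edges of the two-length graph on the rooted `d`-ary tree. The vertices of the tree are the
finite words over `Fin d`: the root is `[]` and the children of `v` are the words `i :: v`.
`Sum.inl (v, i)` is the short edge from `v` to its child `i :: v`, and `Sum.inr (v, w)` is the
long edge from `v` to its descendant `w ++ v`, which lies `k` generations below `v`. -/
abbrev Edge (d k : ℕ) : Type := (List (Fin d) × Fin d) ⊕ (List (Fin d) × (Fin k → Fin d))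

variable {d k : ℕ}

/-- The initial vertex of an edge. -/
def src : Edge d k → List (Fin d)
  | Sum.inl e => e.1
  | Sum.inr e => e.1

/-- The terminal vertex of an edge. -/
def tgt : Edge d k → List (Fin d)
  | Sum.inl e => e.2 :: e.1
  | Sum.inr e => List.ofFn e.2 ++ e.1

/-- The probability that an edge is open: `p` for short edges and `q` for long edges. -/
def prm (p q : ℝ) : Edge d k → ℝ
  | Sum.inl _ => p
  | Sum.inr _ => q

/-- The cluster `C(o)` of the root, when the edge `e` is declared open if its label `ω e` is
less than `prm p q e`. -/
def cluster (p q : ℝ) (ω : Edge d k → I) : Set (List (Fin d)) :=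
  {w | Relation.ReflTransGen
    (fun v v' => ∃ e : Edge d k, src e = v ∧ tgt e = v' ∧ (ω e : ℝ) < prm p q e) [] w}

/-- The labels of the edges are independent and uniform on `[0,1]`. -/
noncomputable def perc (d k : ℕ) : Measure (Edge d k → I) := Measure.infinitePi fun _ => volume

/-- The percolation probability `θ(p,q)`. -/
noncomputable def theta (d k : ℕ) (p q : ℝ) : ℝ :=
  (perc d k).real {ω | (cluster p q ω).Infinite}

/-- The critical curve `q_c(p)`. -/
noncomputable def qc (d k : ℕ) (p : ℝ) : ℝ := sInf {q | 0 < q ∧ q < 1 ∧ 0 < theta d k p q}

end Pool.Agent.Lib.Pea7c0e
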