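import Mathlib
import Pool.Agent.Lib.H98.ProdIndep
import Pool.Agent.Lib.Pea7c0e.Model

open MeasureTheory Set
open scoped unitInterval ENNReal

namespace Pool.Agent.Lib.Pea7c0e

open Pool.Agent.Lib.H98

variable {d k : ℕ}

instance : IsProbabilityMeasure (perc d k) := by unfold perc; infer_instance

/-! ## Basic facts -/

lemma nil_mem_cluster (p q : ℝ) (ω : Edge d k → I) : [] ∈ cluster p q ω :=
  Relation.ReflTransGen.refl

lemma mem_cluster_of_short {p q : ℝ} {ω : Edge d k → I} {v : List (Fin d)} {i : Fin d}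
    (hv : v ∈ cluster p q ω) (h : (ω (Sum.inl (v, i)) : ℝ) < p) : i :: v ∈ cluster p q ω :=
  Relation.ReflTransGen.tail hv ⟨Sum.inl (v, i), rfl, rfl, h⟩

lemma mem_cluster_of_long {p q : ℝ} {ω : Edge d k → I} {v : List (Fin d)} {x : Fin k → Fin d}
    (hv : v ∈ cluster p q ω) (h : (ω (Sum.inr (v, x)) : ℝ) < q) :
    List.ofFn x ++ v ∈ cluster p q ω :=
  Relation.ReflTransGen.tail hv ⟨Sum.inr (v, x), rfl, rfl, h⟩

lemma mem_cluster_cons {p q : ℝ} {ω : Edge d k → I} {v : List (Fin d)} {i : Fin d} :
    i :: v ∈ cluster p q ω ↔ (v ∈ cluster p q ω ∧ (ω (Sum.inl (v, i)) : ℝ) < p) ∨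
      ∃ (u : List (Fin d)) (x : Fin k → Fin d), i :: v = List.ofFn x ++ u ∧
        u ∈ cluster p q ω ∧ (ω (Sum.inr (u, x)) : ℝ) < q := by
  constructor
  · intro h
    rcases Relation.ReflTransGen.cases_tail h with h | ⟨c, hc, e, he1, he2, he3⟩
    · simp at h
    · rcases e with ⟨v', i'⟩ | ⟨u, x⟩
      · simp only [src, tgt, prm] at he1 he2 he3
        obtain ⟨rfl, rfl⟩ := List.cons.inj he2
        subst he1
        exact Or.inl ⟨hc, he3⟩
      · simp only [src, tgt, prm] at he1 he2 he3
        subst he1
        exact Or.inr ⟨u, x, he2.symm, hc, he3⟩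
  · rintro (⟨h1, h2⟩ | ⟨u, x, h1, h2, h3⟩)
    · exact mem_cluster_of_short h1 h2
    · rw [h1]; exact mem_cluster_of_long h2 h3

/-- The event that the vertex `w` is reached. -/
def reach (p q : ℝ) (w : List (Fin d)) : Set (Edge d k → I) := {ω | w ∈ cluster p q ω}

/-- The event that the edge `e` has a label less than `a`. -/
def lab (a : ℝ) (e : Edge d k) : Set (Edge d k → I) := {ω | (ω e : ℝ) < a}

lemma measurableSet_lab (a : ℝ) (e : Edge d k) : MeasurableSet (lab a e) :=
  measurableSet_lt (measurable_subtype_coe.comp (measurable_pi_apply e)) measurable_const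

lemma depOn_lab (a : ℝ) (e : Edge d k) : DepOn (lab a e) {e} := by
  intro ω ω' h hω
  simp only [lab, mem_ofPred_eq] at hω ⊢
  rwa [← h e rfl]

lemma measure_lab {a : ℝ} (ha0 : 0 ≤ a) (ha1 : a ≤ 1) (e : Edge d k) :
    (perc d k).real (lab a e) = a := by
  have h := (measurePreserving_eval_infinitePi (fun _ : Edge d k => (volume : Measure I))
    e).measure_preimage (s := {x : I | (x : ℝ) < a})
    (measurableSet_lt measurable_subtype_coe measurable_const).nullMeasurableSet
  have h2 : (volume : Measure I) {x : I | (x : ℝ) < a} = ENNReal.ofReal a := by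
    rw [unitInterval.volume_apply]
    have : Subtype.val '' {x : I | (x : ℝ) < a} = Ico 0 a := by
      ext y
      constructor
      · rintro ⟨x, hx, rfl⟩
        exact ⟨x.2.1, hx⟩
      · rintro ⟨h0, h1⟩
        exact ⟨⟨y, h0, h1.le.trans ha1⟩, h1, rfl⟩
    rw [this, Real.volume_Ico, sub_zero]
  unfold perc lab Measure.real
  rw [show {ω : Edge d k → I | (ω e : ℝ) < a} = Function.eval e ⁻¹' {x : I | (x : ℝ) < a} from rfl,
    h, h2, ENNReal.toReal_ofReal ha0]

lemma reach_nil (p q : ℝ) : reach p q ([] : List (Fin d)) = (univ : Set (Edge d k → I)) :=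
  eq_univ_of_forall fun ω => nil_mem_cluster p q ω

lemma reach_cons (p q : ℝ) (i : Fin d) (v : List (Fin d)) :
    (reach p q (i :: v) : Set (Edge d k → I)) = (reach p q v ∩ lab p (Sum.inl (v, i))) ∪
      ⋃ (u : List (Fin d)) (x : Fin k → Fin d) (_ : i :: v = List.ofFn x ++ u),
        reach p q u ∩ lab q (Sum.inr (u, x)) := by
  ext ω
  simp only [reach, lab, mem_ofPred_eq, mem_union, mem_inter_iff, mem_iUnion, mem_cluster_cons,
    exists_prop]

lemma measurableSet_reach (hk : 0 < k) (p q : ℝ) (w : List (Fin d)) :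
    MeasurableSet (reach p q w : Set (Edge d k → I)) := by
  induction h : w.length using Nat.strong_induction_on generalizing w with
  | _ n ih =>
    rcases w with _ | ⟨i, v⟩
    · rw [reach_nil]; exact MeasurableSet.univ
    · rw [reach_cons]
      refine MeasurableSet.union ((ih _ (by simp at h; omega) v rfl).inter
        (measurableSet_lab _ _)) ?_
      refine MeasurableSet.iUnion fun u => MeasurableSet.iUnion fun x =>
        MeasurableSet.iUnion fun hx => (ih _ ?_ u rfl).inter (measurableSet_lab _ _)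
      have := congrArg List.length hx
      simp at this h
      omega

/-- `reach p q w` depends only on the edges whose terminal vertex has length at most `|w|`. -/
lemma depOn_reach (hk : 0 < k) (p q : ℝ) (w : List (Fin d)) :
    DepOn (reach p q w : Set (Edge d k → I)) {e | (tgt e).length ≤ w.length} := by
  induction h : w.length using Nat.strong_induction_on generalizing w with
  | _ n ih =>
    rcases w with _ | ⟨i, v⟩
    · rw [reach_nil]; exact depOn_univ _
    · rw [reach_cons]
      refine DepOn.union (DepOn.inter ((ih _ (by simp at h; omega) v rfl).mono ?_)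
        ((depOn_lab _ _).mono ?_)) ?_
      · intro e he; simp only [mem_ofPred_eq] at he ⊢; simp at h; omega
      · rintro e rfl; simp only [mem_ofPred_eq, tgt]; simp at h ⊢; omega
      · refine DepOn.iUnion fun u => DepOn.iUnion fun x => DepOn.iUnion fun hx => ?_
        have h1 := congrArg List.length hx
        simp at h1 h
        refine DepOn.inter ((ih _ ?_ u rfl).mono ?_) ((depOn_lab _ _).mono ?_)
        · omega
        · intro e he; simp only [mem_ofPred_eq] at he ⊢; omega
        · rintro e rfl; simp only [mem_ofPred_eq, tgt]; simp; omega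

/-! ## First moment bound -/

/-- The event that all short edges from `u` down to `l ++ u` are open. -/
def shortPath (p : ℝ) : List (Fin d) → List (Fin d) → Set (Edge d k → I)
  | [], _ => univ
  | i :: l, u => lab p (Sum.inl (l ++ u, i)) ∩ shortPath p l u

lemma measurableSet_shortPath (p : ℝ) (l u : List (Fin d)) :
    MeasurableSet (shortPath p l u : Set (Edge d k → I)) := by
  induction l with
  | nil => exact MeasurableSet.univ
  | cons i l ih => exact (measurableSet_lab _ _).inter ih

lemma depOn_shortPath (p : ℝ) (l u : List (Fin d)) :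
    DepOn (shortPath p l u : Set (Edge d k → I))
      {e | ∃ (v : List (Fin d)) (i : Fin d), e = Sum.inl (v, i) ∧ u.length ≤ v.length ∧
        v.length < u.length + l.length} := by
  induction l with
  | nil => exact depOn_univ _
  | cons i l ih =>
    refine DepOn.inter ((depOn_lab _ _).mono ?_) (ih.mono ?_)
    · rintro e rfl
      exact ⟨l ++ u, i, rfl, by simp, by simp; omega⟩
    · rintro e ⟨v, j, he, h1, h2⟩
      exact ⟨v, j, he, h1, by simp; omega⟩

lemma measure_shortPath {p : ℝ} (hp0 : 0 ≤ p) (hp1 : p ≤ 1) (l u : List (Fin d)) :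
    (perc d k).real (shortPath p l u) = p ^ l.length := by
  induction l with
  | nil => simp [shortPath]
  | cons i l ih =>
    have h := measureReal_inter_of_depOn (μ := fun _ : Edge d k => (volume : Measure I))
      (measurableSet_lab p (Sum.inl (l ++ u, i))) (measurableSet_shortPath p l u)
      (depOn_lab _ _) (depOn_shortPath p l u) (by
        rw [Set.disjoint_left]
        rintro e rfl ⟨v, j, he, h1, h2⟩
        obtain ⟨rfl, rfl⟩ := Prod.mk.inj (Sum.inl.inj he)
        simp at h2
        omega)
    have h' : (perc d k).real (lab p (Sum.inl (l ++ u, i)) ∩ shortPath p l u) =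
      (perc d k).real (lab p (Sum.inl (l ++ u, i))) * (perc d k).real (shortPath p l u) := h
    rw [shortPath, h', measure_lab hp0 hp1, ih, List.length_cons, pow_succ, mul_comm]

lemma shortPath_reach {p q : ℝ} {ω : Edge d k → I} {l u : List (Fin d)}
    (hu : u ∈ cluster p q ω) (h : ω ∈ shortPath p l u) : l ++ u ∈ cluster p q ω := by
  induction l with
  | nil => exact hu
  | cons i l ih => exact mem_cluster_of_short (ih h.2) h.1

lemma perc_inter {A B : Set (Edge d k → I)} (hA : MeasurableSet A) (hB : MeasurableSet B)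
    {S T : Set (Edge d k)} (hAS : DepOn A S) (hBT : DepOn B T) (hST : Disjoint S T) :
    (perc d k).real (A ∩ B) = (perc d k).real A * (perc d k).real B :=
  measureReal_inter_of_depOn (μ := fun _ : Edge d k => (volume : Measure I)) hA hB hAS hBT hST

lemma exists_ofFn {α : Type*} {n : ℕ} (l : List α) (h : l.length = n) :
    ∃ x : Fin n → α, List.ofFn x = l := by
  subst h
  exact ⟨l.get, List.ofFn_get l⟩

lemma measure_reach_short {p q : ℝ} (hk : 0 < k) (hp0 : 0 ≤ p) (hp1 : p ≤ 1) (i : Fin d)
    (v : List (Fin d)) :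
    (perc d k).real (reach p q v ∩ lab p (Sum.inl (v, i))) = (perc d k).real (reach p q v) * p := by
  rw [perc_inter (measurableSet_reach hk p q v) (measurableSet_lab _ _) (depOn_reach hk p q v)
    (depOn_lab _ _) ?_, measure_lab hp0 hp1]
  rw [Set.disjoint_right]
  rintro e rfl h
  simp [tgt] at h

lemma measure_reach_long {p q : ℝ} (hk : 0 < k) (hp0 : 0 ≤ p) (hp1 : p ≤ 1) (hq0 : 0 ≤ q)
    (hq1 : q ≤ 1) (u : List (Fin d)) (x : Fin k → Fin d) :
    (perc d k).real (reach p q u ∩ (lab q (Sum.inr (u, x)) ∩ (shortPath p (List.ofFn x) u)ᶜ)) =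
      (perc d k).real (reach p q u) * (q * (1 - p ^ k)) := by
  have h1 : DepOn (lab q (Sum.inr (u, x)) : Set (Edge d k → I)) {Sum.inr (u, x)} := depOn_lab _ _
  have h2 := (depOn_shortPath (k := k) p (List.ofFn x) u).compl
  rw [perc_inter (measurableSet_reach hk p q u) ((measurableSet_lab _ _).inter
    (measurableSet_shortPath p _ u).compl) (depOn_reach hk p q u)
    (T := {e | u.length < (tgt e).length}) ?_ ?_, perc_inter (measurableSet_lab _ _)
    (measurableSet_shortPath p _ u).compl h1 h2 ?_, measure_lab hq0 hq1,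
    probReal_compl_eq_one_sub (measurableSet_shortPath p _ u), measure_shortPath hp0 hp1,
    List.length_ofFn]
  · rw [Set.disjoint_left]
    rintro e rfl ⟨v, j, he, -⟩
    simp at he
  · refine (h1.mono ?_).inter (h2.mono ?_)
    · rintro e rfl
      simp [tgt, hk]
    · rintro e ⟨v, j, rfl, h3, -⟩
      simp only [mem_ofPred_eq, tgt, List.length_cons]
      omega
  · rw [Set.disjoint_left]
    intro e he he'
    simp only [mem_ofPred_eq] at he he'
    omega

lemma reach_cons_subset {p q : ℝ} (hk : 0 < k) {i : Fin d} {v u : List (Fin d)}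
    {x : Fin k → Fin d} (hx : List.ofFn x ++ u = i :: v) :
    (reach p q (i :: v) : Set (Edge d k → I)) ⊆ (reach p q v ∩ lab p (Sum.inl (v, i))) ∪
      (reach p q u ∩ (lab q (Sum.inr (u, x)) ∩ (shortPath p (List.ofFn x) u)ᶜ)) := by
  rw [reach_cons]
  rintro ω (h | h)
  · exact Or.inl h
  · simp only [mem_iUnion] at h
    obtain ⟨u', x', hx', h1, h2⟩ := h
    have h3 : List.ofFn x = List.ofFn x' ∧ u = u' :=
      List.append_inj (hx.trans hx') (by simp)
    obtain ⟨h3, rfl⟩ := h3
    have h4 : x = x' := List.ofFn_injective h3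
    subst h4
    by_cases hs : ω ∈ shortPath p (List.ofFn x) u
    · left
      obtain ⟨l, hl⟩ : ∃ l, List.ofFn x = i :: l ∧ l ++ u = v := by
        rcases hx0 : List.ofFn x with _ | ⟨a, l⟩
        · have := congrArg List.length hx0
          simp at this
          omega
        · rw [hx0, List.cons_append] at hx
          obtain ⟨rfl, h⟩ := List.cons.inj hx
          exact ⟨l, rfl, h⟩
      rw [hl.1] at hs
      have h5 : l ++ u ∈ cluster p q ω := shortPath_reach h1 hs.2
      have h6 : ω ∈ lab p (Sum.inl (l ++ u, i)) := hs.1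
      rw [hl.2] at h5 h6
      exact ⟨h5, h6⟩
    · exact Or.inr ⟨h1, h2, hs⟩

lemma measure_reach_le {p q t : ℝ} (hk : 0 < k) (hp0 : 0 ≤ p) (hp1 : p ≤ 1) (hq0 : 0 ≤ q)
    (hq1 : q ≤ 1) (ht : 0 < t) (H : p * t ^ (k - 1) + q * (1 - p ^ k) ≤ t ^ k)
    (w : List (Fin d)) : (perc d k).real (reach p q w) ≤ t ^ w.length := by
  have hc : 0 ≤ q * (1 - p ^ k) := mul_nonneg hq0 (sub_nonneg.2 (pow_le_one₀ hp0 hp1))
  have htk : t ^ k = t ^ (k - 1) * t := by rw [← pow_succ]; congr 1; omega
  have hpt : p ≤ t := by
    have h1 : p * t ^ (k - 1) ≤ t * t ^ (k - 1) := by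
      calc p * t ^ (k - 1) ≤ t ^ k := by linarith
        _ = t * t ^ (k - 1) := by rw [htk]; ring
    exact le_of_mul_le_mul_right h1 (by positivity)
  induction h : w.length using Nat.strong_induction_on generalizing w with
  | _ n ih =>
    rcases w with _ | ⟨i, v⟩
    · simp at h
      subst h
      simp
    · have hv : (perc d k).real (reach p q v) ≤ t ^ v.length :=
        ih _ (by simp at h; omega) v rfl
      have hn : n = v.length + 1 := by simpa using h.symm
      have hv' : (perc d k).real (reach p q v ∩ lab p (Sum.inl (v, i))) ≤ t ^ v.length * p := by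
        rw [measure_reach_short hk hp0 hp1]
        exact mul_le_mul_of_nonneg_right hv hp0
      by_cases hlen : k ≤ (i :: v).length
      · obtain ⟨x, hx⟩ := exists_ofFn (n := k) ((i :: v).take k) (by
          rw [List.length_take]; omega)
        have hx' : List.ofFn x ++ (i :: v).drop k = i :: v := by
          rw [hx]; exact List.take_append_drop k _
        have hu : (perc d k).real (reach p q ((i :: v).drop k)) ≤ t ^ (n - k) := by
          refine ih _ (by omega) _ ?_
          rw [List.length_drop, h]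
        have hu' : (perc d k).real (reach p q ((i :: v).drop k) ∩ (lab q
            (Sum.inr ((i :: v).drop k, x)) ∩ (shortPath p (List.ofFn x) ((i :: v).drop k))ᶜ)) ≤
            t ^ (n - k) * (q * (1 - p ^ k)) := by
          rw [measure_reach_long hk hp0 hp1 hq0 hq1]
          exact mul_le_mul_of_nonneg_right hu hc
        have h1 := (measureReal_mono (μ := perc d k) (reach_cons_subset (q := q) (p := p) hk hx')
          (measure_ne_top _ _)).trans (measureReal_union_le _ _)
        have hkn : k ≤ n := by rw [← h]; exact hlen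
        have h2 : t ^ v.length = t ^ (n - k) * t ^ (k - 1) := by
          rw [← pow_add]; congr 1; omega
        have h3 : t ^ n = t ^ (n - k) * t ^ k := by
          rw [← pow_add]; congr 1; omega
        calc (perc d k).real (reach p q (i :: v)) ≤ t ^ v.length * p +
              t ^ (n - k) * (q * (1 - p ^ k)) := h1.trans (add_le_add hv' hu')
          _ = t ^ (n - k) * (p * t ^ (k - 1) + q * (1 - p ^ k)) := by rw [h2]; ring
          _ ≤ t ^ (n - k) * t ^ k := mul_le_mul_of_nonneg_left H (by positivity)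
          _ = t ^ n := h3.symm
      · have h0 : (reach p q (i :: v) : Set (Edge d k → I)) ⊆
            reach p q v ∩ lab p (Sum.inl (v, i)) := by
          rw [reach_cons]
          rintro ω (h1 | h1)
          · exact h1
          · simp only [mem_iUnion] at h1
            obtain ⟨u, x, hx, -⟩ := h1
            have := congrArg List.length hx
            simp at this hlen
            omega
        calc (perc d k).real (reach p q (i :: v)) ≤ t ^ v.length * p :=
              (measureReal_mono h0 (measure_ne_top _ _)).trans hv'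
          _ ≤ t ^ v.length * t := mul_le_mul_of_nonneg_left hpt (by positivity)
          _ = t ^ n := by rw [hn, pow_succ]

lemma tsum_list_pow {t : ℝ} (ht : 0 ≤ t) (hdt : (d : ℝ) * t < 1) :
    ∑' w : List (Fin d), ENNReal.ofReal (t ^ w.length) ≠ ⊤ := by
  rw [← (Equiv.sigmaFiberEquiv (List.length : List (Fin d) → ℕ)).tsum_eq, ENNReal.tsum_sigma']
  have h1 : ∀ n : ℕ, ∑' b : { w : List (Fin d) // w.length = n },
      ENNReal.ofReal (t ^ ((Equiv.sigmaFiberEquiv (List.length : List (Fin d) → ℕ))
        ⟨n, b⟩).length) = ENNReal.ofReal ((d * t) ^ n) := by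
    intro n
    have h2 : ∀ b : { w : List (Fin d) // w.length = n },
        ENNReal.ofReal (t ^ ((Equiv.sigmaFiberEquiv (List.length : List (Fin d) → ℕ))
        ⟨n, b⟩).length) = ENNReal.ofReal (t ^ n) := by
      intro b
      have : ((Equiv.sigmaFiberEquiv (List.length : List (Fin d) → ℕ)) ⟨n, b⟩).length = n := b.2
      rw [this]
    simp_rw [h2]
    have h3 : ∑' _ : List.Vector (Fin d) n, ENNReal.ofReal (t ^ n) =
        ENNReal.ofReal ((d * t) ^ n) := by
      rw [tsum_fintype, Finset.sum_const, Finset.card_univ, card_vector, Fintype.card_fin,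
        nsmul_eq_mul, mul_pow, ENNReal.ofReal_mul (by positivity),
        ENNReal.ofReal_pow (Nat.cast_nonneg d), ENNReal.ofReal_natCast]
      push_cast
      rfl
    exact h3
  simp_rw [h1]
  exact (ENNReal.ofReal_tsum_of_nonneg (fun n => by positivity)
    (summable_geometric_of_lt_one (by positivity) hdt)) ▸ ENNReal.ofReal_ne_top

/-- Below the first moment curve there is no percolation. -/
lemma theta_eq_zero {p q : ℝ} (hd : 0 < d) (hk : 0 < k) (hp0 : 0 ≤ p) (hp1 : p ≤ 1) (hq0 : 0 ≤ q)
    (hq1 : q ≤ 1) (H : d * p + d ^ k * (q * (1 - p ^ k)) < 1) : theta d k p q = 0 := by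
  obtain ⟨t, ht, hdt, hH⟩ : ∃ t : ℝ, 0 < t ∧ (d : ℝ) * t < 1 ∧
      p * t ^ (k - 1) + q * (1 - p ^ k) ≤ t ^ k := by
    have hd' : (0 : ℝ) < d := by exact_mod_cast hd
    have hcont : ContinuousAt (fun t : ℝ => t ^ k - (p * t ^ (k - 1) + q * (1 - p ^ k)))
        (1 / d) := by fun_prop
    have hpos : 0 < (1 / d : ℝ) ^ k - (p * (1 / d) ^ (k - 1) + q * (1 - p ^ k)) := by
      have h1 : (d : ℝ) ^ k = d ^ (k - 1) * d := by rw [← pow_succ]; congr 1; omega
      have h2 : (d : ℝ) ^ k * ((1 / d : ℝ) ^ k - (p * (1 / d) ^ (k - 1) + q * (1 - p ^ k))) =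
          1 - (d * p + d ^ k * (q * (1 - p ^ k))) := by
        have h3 : (d : ℝ) ^ k * (1 / d : ℝ) ^ k = 1 := by
          rw [← mul_pow, mul_one_div_cancel hd'.ne', one_pow]
        have h4 : (d : ℝ) ^ k * (1 / d : ℝ) ^ (k - 1) = d := by
          rw [h1, mul_right_comm, ← mul_pow, mul_one_div_cancel hd'.ne', one_pow, one_mul]
        calc _ = (d : ℝ) ^ k * (1 / d : ℝ) ^ k - (p * ((d : ℝ) ^ k * (1 / d : ℝ) ^ (k - 1)) +
              d ^ k * (q * (1 - p ^ k))) := by ring
          _ = _ := by rw [h3, h4]; ring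
      have h3 : 0 < (d : ℝ) ^ k := by positivity
      exact (mul_pos_iff_of_pos_left h3).1 (by rw [h2]; linarith)
    have hev := hcont.eventually (lt_mem_nhds hpos)
    have hev2 : ∀ᶠ t in nhds (1 / d : ℝ), 0 < t := lt_mem_nhds (by positivity)
    have hev3 : ∀ᶠ t : ℝ in nhdsWithin (1 / d : ℝ) (Iio (1 / d : ℝ)), 0 < t ∧ t < 1 / d ∧
        0 < t ^ k - (p * t ^ (k - 1) + q * (1 - p ^ k)) := by
      filter_upwards [nhdsWithin_le_nhds hev, nhdsWithin_le_nhds hev2, self_mem_nhdsWithin]
        with t h1 h2 h3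
      exact ⟨h2, h3, h1⟩
    obtain ⟨t, h1, h2, h3⟩ := hev3.exists
    refine ⟨t, h1, ?_, by linarith⟩
    rw [lt_div_iff₀ hd'] at h2
    linarith
  have h1 : ∑' w : List (Fin d), perc d k (reach p q w) ≠ ⊤ := by
    refine ne_top_of_le_ne_top (tsum_list_pow ht.le hdt) (ENNReal.tsum_le_tsum fun w => ?_)
    rw [← ENNReal.ofReal_toReal (measure_ne_top (perc d k) (reach p q w))]
    exact ENNReal.ofReal_le_ofReal (measure_reach_le hk hp0 hp1 hq0 hq1 ht hH w)
  have h2 := measure_limsup_cofinite_eq_zero h1
  have h3 : {ω : Edge d k → I | (cluster p q ω).Infinite} ⊆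
      Filter.limsup (fun w => reach p q w) Filter.cofinite := by
    intro ω hω
    rw [Filter.limsup_eq_iInf_iSup]
    simp only [Set.iInf_eq_iInter, Set.iSup_eq_iUnion, mem_iInter, mem_iUnion]
    intro s hs
    have hinf : (cluster p q ω ∩ s).Infinite := by
      intro hfin
      refine hω ((hfin.union (Filter.mem_cofinite.1 hs)).subset fun w hw => ?_)
      by_cases hws : w ∈ s
      · exact Or.inl ⟨hw, hws⟩
      · exact Or.inr hws
    obtain ⟨w, hw1, hw2⟩ := hinf.nonempty
    exact ⟨w, hw2, hw1⟩
  unfold theta Measure.real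
  rw [measure_mono_null h3 h2, ENNReal.toReal_zero]

/-! ## The test function -/

/-- Linear coefficients of the test function. -/
noncomputable def ac (m : ℕ) (dd q lam : ℝ) : ℕ → ℝ
  | 0 => 1
  | i + 1 => (lam / dd) ^ i * (dd ^ m * q / lam ^ m)

/-- Quadratic coefficients of the test function. -/
noncomputable def wc (dd : ℝ) : ℕ → ℝ
  | 0 => 1
  | i + 1 => (1 / dd) ^ (i + 1) / 2

/-- The test function of a sequence `x` (only the entries `x 0, …, x m` matter, `m = k - 1`). -/
noncomputable def hf (m : ℕ) (dd p q lam : ℝ) (x : ℕ → ℝ) : ℝ :=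
  ∑ i ∈ Finset.range (m + 1), ac m dd q lam i * x i -
    p * ∑ j ∈ Finset.range (m + 1), x j * ∑ i ∈ Finset.range j, wc dd i * x i

/-- Put `b` in front of the sequence `x`. -/
def consR (b : ℝ) (x : ℕ → ℝ) : ℕ → ℝ
  | 0 => b
  | n + 1 => x n

lemma hf_consR (m : ℕ) (dd p q lam b : ℝ) (x : ℕ → ℝ) :
    hf m dd p q lam (consR b x) = b + ∑ i ∈ Finset.range m, ac m dd q lam (i + 1) * x i -
      p * ∑ j ∈ Finset.range m, x j * (b + ∑ i ∈ Finset.range j, wc dd (i + 1) * x i) := by
  unfold hf
  rw [Finset.sum_range_succ', Finset.sum_range_succ' (fun j => consR b x j *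
    ∑ i ∈ Finset.range j, wc dd i * consR b x i)]
  have h1 : ∀ j, ∑ i ∈ Finset.range (j + 1), wc dd i * consR b x i =
      b + ∑ i ∈ Finset.range j, wc dd (i + 1) * x i := by
    intro j
    rw [Finset.sum_range_succ', add_comm]
    simp only [consR, wc, one_mul]
  simp_rw [h1]
  simp only [consR, ac, one_mul, Finset.range_zero, Finset.sum_empty, mul_zero, add_zero]
  rw [add_comm (∑ i ∈ Finset.range m, _) b]

lemma hf_affine (m : ℕ) (dd p q lam π : ℝ) (x : ℕ → ℝ) :
    π * hf m dd p q lam (consR 1 x) + (1 - π) * hf m dd p q lam (consR 0 x) =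
      hf m dd p q lam (consR π x) := by
  simp only [hf_consR]
  have h : ∀ b : ℝ, ∑ j ∈ Finset.range m, x j * (b + ∑ i ∈ Finset.range j, wc dd (i + 1) * x i) =
      b * ∑ j ∈ Finset.range m, x j +
        ∑ j ∈ Finset.range m, x j * ∑ i ∈ Finset.range j, wc dd (i + 1) * x i := by
    intro b
    rw [Finset.mul_sum, ← Finset.sum_add_distrib]
    exact Finset.sum_congr rfl fun j _ => by ring
  rw [h, h, h]
  ring

lemma wc_nonneg {dd : ℝ} (hd : 0 < dd) (i : ℕ) : 0 ≤ wc dd i := by
  rcases i with _ | i
  · exact zero_le_one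
  · unfold wc; positivity

/-- The key inequality: the test function is a sub-eigenfunction. -/
lemma hf_key {m : ℕ} (hm : 1 ≤ m) {dd p q lam : ℝ} (hd : 2 ≤ dd) (hp0 : 0 ≤ p)
    (hp : p * dd ≤ 1 / 2) (hq0 : 0 ≤ q) (hq : p = 0 ∨ dd ^ (m + 1) * q ≤ 1) (hlam : 1 ≤ lam)
    (hS : lam ≤ dd * p * (1 - p) + dd ^ (m + 1) * q / lam ^ m)
    {x : ℕ → ℝ} (hx0 : ∀ i, 0 ≤ x i) (hx1 : ∀ i, x i ≤ 1) :
    lam * hf m dd p q lam x ≤
      dd * hf m dd p q lam (consR (p * x 0 + q * x m - p * q * x 0 * x m) x) := by
  have hd0 : 0 < dd := by linarith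
  have hl0 : 0 < lam := by linarith
  obtain ⟨m', rfl⟩ : ∃ m', m = m' + 1 := ⟨m - 1, by omega⟩
  set π := p * x 0 + q * x (m' + 1) - p * q * x 0 * x (m' + 1) with hπ
  rw [hf_consR]
  unfold hf
  -- linear part
  have ha1 : ac (m' + 1) dd q lam 1 = dd ^ (m' + 1) * q / lam ^ (m' + 1) := by
    simp [ac]
  have ham : lam * ac (m' + 1) dd q lam (m' + 1) = dd * q := by
    simp only [ac, div_pow]
    field_simp
    ring
  have hstep : ∀ i, dd * ac (m' + 1) dd q lam (i + 1 + 1) =
      lam * ac (m' + 1) dd q lam (i + 1) := by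
    intro i
    simp only [ac, div_pow]
    field_simp
    ring
  have hlin1 : dd * ∑ i ∈ Finset.range (m' + 1), ac (m' + 1) dd q lam (i + 1) * x i =
      dd ^ (m' + 1 + 1) * q / lam ^ (m' + 1) * x 0 +
        lam * ∑ i ∈ Finset.range m', ac (m' + 1) dd q lam (i + 1) * x (i + 1) := by
    rw [Finset.sum_range_succ', ha1, mul_add, Finset.mul_sum, Finset.mul_sum, add_comm]
    congr 1
    · ring
    · refine Finset.sum_congr rfl fun i _ => ?_
      rw [← mul_assoc, hstep, mul_assoc]
  have hlin2 : lam * ∑ i ∈ Finset.range (m' + 1 + 1), ac (m' + 1) dd q lam i * x i =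
      lam * x 0 + lam * ∑ i ∈ Finset.range m', ac (m' + 1) dd q lam (i + 1) * x (i + 1) +
        dd * q * x (m' + 1) := by
    rw [Finset.sum_range_succ, mul_add, ← mul_assoc, ham, Finset.sum_range_succ']
    have : ac (m' + 1) dd q lam 0 = 1 := rfl
    rw [this]
    ring
  -- the quadratic part
  set Q1 := ∑ j ∈ Finset.range (m' + 1 + 1), x j * ∑ i ∈ Finset.range j, wc dd i * x i with hQ1
  set Q2 := ∑ j ∈ Finset.range (m' + 1), x j * (π + ∑ i ∈ Finset.range j, wc dd (i + 1) * x i)
    with hQ2
  have hquad : p * (dd * Q2) ≤ p * (lam * Q1 + dd * p * x 0 - dd * q * x 0 * x (m' + 1)) := by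
    rcases hq with hp' | hq
    · simp [hp']
    refine mul_le_mul_of_nonneg_left ?_ hp0
    have hdq : 2 * (dd * q) ≤ 1 := by
      have h1 : dd * (dd ^ m' * (dd * q)) ≤ 1 := by
        calc dd * (dd ^ m' * (dd * q)) = dd ^ (m' + 1 + 1) * q := by ring
          _ ≤ 1 := hq
      have h2 : dd * q ≤ dd ^ m' * (dd * q) := by
        have : 1 ≤ dd ^ m' := one_le_pow₀ (by linarith)
        have h3 : 0 ≤ dd * q := by positivity
        nlinarith
      have h3 : 0 ≤ dd ^ m' * (dd * q) := by positivity
      nlinarith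
    have hwq : ∀ i, i < m' + 1 → dd * q * x i ≤ wc dd i * x i - (if i = 0 then
        dd * q * x 0 else 0) := by
      intro i hi
      rcases i with _ | i
      · simp only [wc, if_true]
        nlinarith [hx0 0]
      · simp only [Nat.succ_ne_zero, if_false, sub_zero]
        refine mul_le_mul_of_nonneg_right ?_ (hx0 _)
        have h1 : dd ^ (i + 1) * (1 / dd) ^ (i + 1) = 1 := by
          rw [← mul_pow, mul_one_div_cancel hd0.ne', one_pow]
        have h2 : dd ^ (i + 1) * (2 * (dd * q)) ≤ 1 := by
          calc dd ^ (i + 1) * (2 * (dd * q)) ≤ dd ^ (i + 1) * (dd * (dd * q)) := by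
                have : 0 ≤ dd * q := by positivity
                exact mul_le_mul_of_nonneg_left (mul_le_mul_of_nonneg_right hd this)
                  (by positivity)
            _ = dd ^ (i + 2) * (dd * q) := by ring
            _ ≤ dd ^ (m' + 1) * (dd * q) := by
                have : 0 ≤ dd * q := by positivity
                exact mul_le_mul_of_nonneg_right
                  (pow_le_pow_right₀ (by linarith) (by omega)) this
            _ = dd ^ (m' + 1 + 1) * q := by ring
            _ ≤ 1 := hq
        have h3 : 0 < dd ^ (i + 1) := by positivity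
        have h4 : dd ^ (i + 1) * (dd * q) ≤ dd ^ (i + 1) * wc dd (i + 1) := by
          simp only [wc]
          rw [← mul_div_assoc, h1]
          linarith
        exact le_of_mul_le_mul_left h4 h3
    have hπle : π ≤ p * x 0 + q * x (m' + 1) := by
      have : 0 ≤ p * q * x 0 * x (m' + 1) := by
        have := hx0 0
        have := hx0 (m' + 1)
        positivity
      linarith
    -- rows `j ≤ m'`
    have hrow : ∀ j ∈ Finset.range (m' + 1),
        dd * (x j * (π + ∑ i ∈ Finset.range j, wc dd (i + 1) * x i)) ≤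
          lam * (x j * ∑ i ∈ Finset.range j, wc dd i * x i) +
            ((if j = 0 then dd * p * x 0 else 0) + dd * q * x (m' + 1) * x j) := by
      intro j _
      rcases j with _ | j
      · simp only [Finset.range_zero, Finset.sum_empty, mul_zero, add_zero, if_true, zero_add]
        have h1 := hx0 0
        have h2 := hx1 0
        have h3 := hx0 (m' + 1)
        have h4 : dd * (x 0 * π) ≤ dd * (x 0 * (p * x 0 + q * x (m' + 1))) := by gcongr
        have h5 : dd * p * (x 0 * x 0) ≤ dd * p * x 0 := by
          have : x 0 * x 0 ≤ x 0 := by nlinarith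
          gcongr
        nlinarith
      · simp only [Nat.succ_ne_zero, if_false, zero_add]
        have h1 : dd * ∑ i ∈ Finset.range (j + 1), wc dd (i + 1) * x i + 1 / 2 * x 0 ≤
            lam * ∑ i ∈ Finset.range (j + 1), wc dd i * x i := by
          have h2 : dd * ∑ i ∈ Finset.range (j + 1), wc dd (i + 1) * x i + 1 / 2 * x 0 =
              ∑ i ∈ Finset.range (j + 1), wc dd i * x i := by
            rw [Finset.mul_sum, Finset.sum_range_succ', Finset.sum_range_succ' (fun i =>
              wc dd i * x i)]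
            have h3 : ∀ i, dd * (wc dd (i + 1 + 1) * x (i + 1)) = wc dd (i + 1) * x (i + 1) := by
              intro i
              simp only [wc]
              rw [pow_succ (1 / dd) (i + 1)]
              field_simp
            simp_rw [h3]
            have h4 : dd * (wc dd (0 + 1) * x 0) = 1 / 2 * x 0 := by
              simp only [wc, zero_add, pow_one]
              field_simp
            rw [h4]
            simp only [wc]
            ring
          rw [h2]
          have h5 : 0 ≤ ∑ i ∈ Finset.range (j + 1), wc dd i * x i :=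
            Finset.sum_nonneg fun i _ => mul_nonneg (wc_nonneg hd0 i) (hx0 i)
          nlinarith
        have h2 : dd * π ≤ 1 / 2 * x 0 + dd * q * x (m' + 1) := by
          have h3 : dd * π ≤ dd * (p * x 0 + q * x (m' + 1)) := by gcongr
          have h4 := hx0 0
          nlinarith
        have h3 := hx0 (j + 1)
        calc dd * (x (j + 1) * (π + ∑ i ∈ Finset.range (j + 1), wc dd (i + 1) * x i))
            = x (j + 1) * (dd * π + dd * ∑ i ∈ Finset.range (j + 1), wc dd (i + 1) * x i) := by
              ring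
          _ ≤ x (j + 1) * (lam * ∑ i ∈ Finset.range (j + 1), wc dd i * x i +
                dd * q * x (m' + 1)) := by
              refine mul_le_mul_of_nonneg_left ?_ h3
              linarith
          _ = _ := by ring
    have hsum := Finset.sum_le_sum hrow
    rw [← Finset.mul_sum, Finset.sum_add_distrib, ← Finset.mul_sum, Finset.sum_add_distrib,
      Finset.sum_ite_eq' (Finset.range (m' + 1)) 0 (fun _ => dd * p * x 0), ← Finset.mul_sum] at hsum
    simp only [Finset.mem_range, Nat.succ_pos', if_true] at hsum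
    -- the last row
    have hlast : dd * q * x (m' + 1) * ∑ i ∈ Finset.range (m' + 1), x i +
        dd * q * x 0 * x (m' + 1) ≤
          lam * (x (m' + 1) * ∑ i ∈ Finset.range (m' + 1), wc dd i * x i) := by
      have h1 : ∑ i ∈ Finset.range (m' + 1), dd * q * x i ≤
          ∑ i ∈ Finset.range (m' + 1), (wc dd i * x i - (if i = 0 then dd * q * x 0 else 0)) :=
        Finset.sum_le_sum fun i hi => hwq i (Finset.mem_range.1 hi)
      rw [← Finset.mul_sum, Finset.sum_sub_distrib,
        Finset.sum_ite_eq' (Finset.range (m' + 1)) 0 (fun _ => dd * q * x 0)] at h1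
      simp only [Finset.mem_range, Nat.succ_pos', if_true] at h1
      have h2 := hx0 (m' + 1)
      have h5 : 0 ≤ ∑ i ∈ Finset.range (m' + 1), wc dd i * x i :=
        Finset.sum_nonneg fun i _ => mul_nonneg (wc_nonneg hd0 i) (hx0 i)
      calc dd * q * x (m' + 1) * ∑ i ∈ Finset.range (m' + 1), x i + dd * q * x 0 * x (m' + 1)
          = x (m' + 1) * (dd * q * ∑ i ∈ Finset.range (m' + 1), x i + dd * q * x 0) := by ring
        _ ≤ x (m' + 1) * ∑ i ∈ Finset.range (m' + 1), wc dd i * x i :=
            mul_le_mul_of_nonneg_left (by linarith) h2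
        _ ≤ lam * (x (m' + 1) * ∑ i ∈ Finset.range (m' + 1), wc dd i * x i) := by
            have := mul_nonneg h2 h5
            nlinarith
    rw [hQ1, Finset.sum_range_succ (fun j => x j * ∑ i ∈ Finset.range j, wc dd i * x i)]
    rw [hQ2]
    linarith
  have hfin : dd * p * p * x 0 ≤ (dd * p + dd ^ (m' + 1 + 1) * q / lam ^ (m' + 1) - lam) * x 0 := by
    refine mul_le_mul_of_nonneg_right ?_ (hx0 0)
    linarith
  rw [mul_sub, hlin2, mul_sub, mul_add, hlin1]
  have hex : dd * π = dd * p * x 0 + dd * q * x (m' + 1) - p * (dd * q * x 0 * x (m' + 1)) := by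
    rw [hπ]; ring
  rw [hex]
  nlinarith [hquad, hfin]

end Pool.Agent.Lib.Pea7c0e
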